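import Mathlib

/-!
The least `n ≥ 2k` such that exactly one of `n, n-1, ..., n-k+1` does not divide `C(n,k)` is at
most `exp (19 k log log k / log k)` for large `k`.

For `i < k` the number `n - i` divides `C(n,k)` if and only if `k!` divides the product of the
other `k - 1` factors.  Put `n = n0 + s`.  Suppose that `p^(3 log_p k)` divides `n0` for every
prime `p ≤ k` with `p^2 ≤ k` or `k mod p ≤ 2s` (class A), and that `(n0 + s) mod p ≤ 2s` for all
other primes `p ≤ k` (class B).  Then `i = s` is the only index with `n - i` not dividing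
`C(n,k)` (lemma `good`): for `p` in class B the window `(n-k, n]` contains `⌊k/p⌋ + 1` multiples
of `p`, for `p` in class A the valuations are those of `s! (k-1-s)!` and of `n0`.  At most `2s+1`
primes `p > √k` satisfy `k mod p ≤ 2s`, because two of them with the same remainder `r` would
give `p q ∣ k - r`.  The condition for class B is achieved by the pigeonhole principle applied to
the multiples of the modulus of class A.  Finally `s = ⌊k / (log k)^2⌋`.
-/

open Finset

namespace Pool.Agent.Results.MP_14bcfc_nt.Subexponential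

/-- `N(n,k)`: the number of `i` with `0 ≤ i ≤ k-1` such that `n - i` does not divide `C(n,k)`. -/
def numFail (n k : ℕ) : ℕ := ((Finset.range k).filter (fun i => ¬ (n - i) ∣ n.choose k)).card

lemma prod_eq {n k i : ℕ} (hi : i < k) :
    (n - i) * ∏ j ∈ (range k).erase i, (n - j) = k.factorial * n.choose k := by
  rw [Finset.mul_prod_erase (range k) (fun j => n - j) (mem_range.mpr hi),
    ← Nat.descFactorial_eq_prod_range, Nat.descFactorial_eq_factorial_mul_choose]

lemma dvd_iff {n k i : ℕ} (hn : k ≤ n) (hi : i < k) :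
    (n - i) ∣ n.choose k ↔ k.factorial ∣ ∏ j ∈ (range k).erase i, (n - j) := by
  have h := prod_eq (n := n) hi
  have hpos : 0 < n - i := by omega
  have hk : 0 < k.factorial := Nat.factorial_pos k
  constructor
  · rintro ⟨c, hc⟩
    refine ⟨c, ?_⟩
    rw [hc] at h
    apply Nat.eq_of_mul_eq_mul_left hpos
    rw [h]; ring
  · rintro ⟨c, hc⟩
    refine ⟨c, ?_⟩
    rw [hc] at h
    apply Nat.eq_of_mul_eq_mul_left hk
    rw [← h]; ring

lemma prodA (s t : ℕ) :
    ∏ j ∈ (range (s + 1 + t)).erase s, (s - j + (j - s)) = s.factorial * t.factorial := by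
  induction t with
  | zero =>
    have e : (range (s + 1 + 0)).erase s = range s := by
      ext j; simp [mem_erase]; omega
    rw [e, Nat.factorial_zero, mul_one, ← Finset.prod_range_add_one_eq_factorial,
      ← Finset.prod_range_reflect]
    refine Finset.prod_congr rfl fun j hj => ?_
    have := mem_range.mp hj
    omega
  | succ t ih =>
    have e : (range (s + 1 + (t + 1))).erase s = insert (s + 1 + t) ((range (s + 1 + t)).erase s) := by
      ext j; simp [mem_erase, mem_insert]; omega
    rw [e, Finset.prod_insert (by simp), ih, Nat.factorial_succ]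
    have : s - (s + 1 + t) + (s + 1 + t - s) = t + 1 := by omega
    rw [this]; ring

lemma fact_eq {p e a x : ℕ} (hp : p.Prime) (ha : a ≠ 0) (hx : x ≠ 0) (hae : a < p ^ e)
    (h : ∀ f ≤ e, (p ^ f ∣ x ↔ p ^ f ∣ a)) : x.factorization p = a.factorization p := by
  have hv : a.factorization p < e := by
    by_contra hcon
    push Not at hcon
    have h1 : p ^ e ∣ a := (hp.pow_dvd_iff_le_factorization ha).mpr hcon
    exact absurd (Nat.le_of_dvd (Nat.pos_of_ne_zero ha) h1) (by omega)
  apply le_antisymm
  · by_contra hcon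
    push Not at hcon
    have h1 : p ^ (a.factorization p + 1) ∣ x := (hp.pow_dvd_iff_le_factorization hx).mpr hcon
    have h2 := (h _ (by omega)).mp h1
    have h3 := (hp.pow_dvd_iff_le_factorization ha).mp h2
    omega
  · exact (hp.pow_dvd_iff_le_factorization hx).mp
      ((h _ hv.le).mpr ((hp.pow_dvd_iff_le_factorization ha).mpr le_rfl))

lemma fact_term {p e n0 s k j : ℕ} (hp : p.Prime) (hk : k ≤ n0) (hs : s < k) (he : k < p ^ e)
    (hd : p ^ e ∣ n0) (hj : j < k) (hjs : j ≠ s) :
    (n0 + s - j).factorization p = (s - j + (j - s)).factorization p := by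
  apply fact_eq (e := e) hp (by omega) (by omega) (by omega)
  intro f hf
  have hd' : p ^ f ∣ n0 := (pow_dvd_pow p hf).trans hd
  rcases lt_or_gt_of_ne hjs with h | h
  · have e1 : n0 + s - j = n0 + (s - j + (j - s)) := by omega
    rw [e1]
    exact Nat.dvd_add_right hd'
  · have e1 : (n0 + s - j) + (s - j + (j - s)) = n0 := by omega
    rw [← e1] at hd'
    constructor
    · intro h1; exact (Nat.dvd_add_right h1).mp hd'
    · intro h1; exact (Nat.dvd_add_left h1).mp hd'

lemma good {k s n0 : ℕ} (hk2 : 2 ≤ k) (hs : s < k) (hn0 : 2 * k ≤ n0)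
    (hA : ∀ p, p.Prime → p ≤ k → (k < p * p → k % p ≤ 2 * s) → p ^ (3 * Nat.log p k) ∣ n0)
    (hB : ∀ p, p.Prime → p ≤ k → k < p * p → 2 * s < k % p → (n0 + s) % p ≤ 2 * s) :
    numFail (n0 + s) k = 1 := by
  have hprodne : ∀ i, ∏ j ∈ (range k).erase i, (n0 + s - j) ≠ 0 := by
    intro i
    apply Finset.prod_ne_zero_iff.mpr
    intro j hj
    have := mem_range.mp (mem_of_mem_erase hj)
    omega
  obtain ⟨t, ht⟩ : ∃ t, k = s + 1 + t := ⟨k - (s + 1), by omega⟩
  have hX : ∏ j ∈ (range k).erase s, (s - j + (j - s)) = s.factorial * t.factorial := by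
    rw [ht]; exact prodA s t
  -- valuation of D_s
  have hDs : ∀ p, p.Prime → ∀ e, k < p ^ e → p ^ e ∣ n0 →
      (∏ j ∈ (range k).erase s, (n0 + s - j)).factorization p
        = (s.factorial * t.factorial).factorization p := by
    intro p hp e he hd
    rw [← hX, Nat.factorization_prod, Nat.factorization_prod, Finset.sum_apply', Finset.sum_apply']
    · refine Finset.sum_congr rfl fun j hj => ?_
      have h1 := mem_range.mp (mem_of_mem_erase hj)
      have h2 := ne_of_mem_erase hj
      exact fact_term hp (by omega) hs he hd h1 h2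
    · intro j hj
      have h2 := ne_of_mem_erase hj
      omega
    · intro j hj
      have := mem_range.mp (mem_of_mem_erase hj)
      omega
  have hkfac : k.factorial = k * ((k - 1).choose s) * (s.factorial * t.factorial) := by
    have h1 := Nat.choose_mul_factorial_mul_factorial (n := k - 1) (k := s) (by omega)
    have h2 : k - 1 - s = t := by omega
    rw [h2] at h1
    have h3 : k.factorial = k * (k - 1).factorial := by
      rw [Nat.mul_factorial_pred (by omega)]
    rw [h3, ← h1]; ring
  have hXne : s.factorial * t.factorial ≠ 0 :=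
    mul_ne_zero (Nat.factorial_ne_zero _) (Nat.factorial_ne_zero _)
  have hchne : (k - 1).choose s ≠ 0 := (Nat.choose_pos (by omega)).ne'
  have hkne : k ≠ 0 := by omega
  have hvk : ∀ p, k.factorial.factorization p = k.factorization p
      + ((k - 1).choose s).factorization p + (s.factorial * t.factorial).factorization p := by
    intro p
    rw [hkfac, Nat.factorization_mul (mul_ne_zero hkne hchne) hXne, Nat.factorization_mul hkne hchne]
    rfl
  have key : ∀ i, i < k → ((n0 + s - i) ∣ (n0 + s).choose k ↔ i ≠ s) := by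
    intro i hi
    rw [dvd_iff (by omega) hi]
    constructor
    · rintro hdvd rfl
      -- failing index
      set p := k.minFac with hpdef
      have hp : p.Prime := Nat.minFac_prime (by omega)
      have hpk : p ∣ k := Nat.minFac_dvd k
      have hple : p ≤ k := Nat.le_of_dvd (by omega) hpk
      have hL : 1 ≤ Nat.log p k := Nat.log_pos hp.one_lt hple
      have hd := hA p hp hple (fun _ => by rw [Nat.mod_eq_zero_of_dvd hpk]; omega)
      have he : k < p ^ (3 * Nat.log p k) :=
        lt_of_lt_of_le (Nat.lt_pow_succ_log_self hp.one_lt k)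
          (Nat.pow_le_pow_right hp.pos (by omega))
      have h1 := hDs p hp _ he hd
      have h2 := (Nat.factorization_prime_le_iff_dvd (Nat.factorial_ne_zero k)
        (hprodne i)).mpr hdvd p hp
      rw [h1, hvk] at h2
      have h3 : 1 ≤ k.factorization p := (hp.dvd_iff_one_le_factorization hkne).mp hpk
      omega
    · intro his
      rw [← Nat.factorization_prime_le_iff_dvd (Nat.factorial_ne_zero k) (hprodne i)]
      intro p hp
      rcases lt_or_ge k p with hkp | hpk
      · rw [Nat.factorization_factorial_eq_zero_of_lt hkp]; exact Nat.zero_le _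
      by_cases hcl : k < p * p → k % p ≤ 2 * s
      · -- class A
        have hL : 1 ≤ Nat.log p k := Nat.log_pos hp.one_lt hpk
        have hd := hA p hp hpk hcl
        have he : k < p ^ (3 * Nat.log p k) :=
          lt_of_lt_of_le (Nat.lt_pow_succ_log_self hp.one_lt k)
            (Nat.pow_le_pow_right hp.pos (by omega))
        have h1 := hDs p hp _ he hd
        have e1 := prod_eq (n := n0 + s) hi
        have e2 := prod_eq (n := n0 + s) hs
        have e3 : (n0 + s - i) * ∏ j ∈ (range k).erase i, (n0 + s - j)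
            = (n0 + s - s) * ∏ j ∈ (range k).erase s, (n0 + s - j) := by rw [e1, e2]
        have e4 : ((n0 + s - i) * ∏ j ∈ (range k).erase i, (n0 + s - j)).factorization p
            = ((n0 + s - s) * ∏ j ∈ (range k).erase s, (n0 + s - j)).factorization p := by rw [e3]
        rw [Nat.factorization_mul (by omega) (hprodne i), Nat.factorization_mul (by omega) (hprodne s),
          Finsupp.add_apply, Finsupp.add_apply, h1, Nat.add_sub_cancel,
          fact_term hp (by omega) hs he hd hi his] at e4
        have h5 : 3 * Nat.log p k ≤ n0.factorization p :=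
          (hp.pow_dvd_iff_le_factorization (by omega)).mp hd
        have h6 : (s - i + (i - s)).factorization p ≤ Nat.log p k := by
          apply Nat.le_log_of_pow_le hp.one_lt
          refine (Nat.ordProj_le p (by omega)).trans (by omega)
        have h7 : k.factorization p ≤ Nat.log p k := by
          apply Nat.le_log_of_pow_le hp.one_lt
          exact Nat.ordProj_le p (by omega)
        have h8 : ((k - 1).choose s).factorization p ≤ Nat.log p k :=
          (Nat.factorization_choose_le_log).trans (Nat.log_mono_right (by omega))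
        rw [hvk]
        omega
      · -- class B
        push Not at hcl
        obtain ⟨hpp, hr⟩ := hcl
        have hb := hB p hp hpk hpp hr
        have hlog : Nat.log p k < 2 := Nat.log_lt_of_lt_pow (by omega) (by rw [pow_two]; exact hpp)
        rw [Nat.factorization_factorial hp hlog, Nat.factorization_prod, Finset.sum_apply']
        swap
        · intro j hj
          have := mem_range.mp (mem_of_mem_erase hj)
          omega
        have e0 : ∑ i ∈ Finset.Ico 1 2, k / p ^ i = k / p := by
          rw [show Finset.Ico 1 2 = {1} from rfl, Finset.sum_singleton, pow_one]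
        rw [e0]
        set q := k / p with hq
        set a := (n0 + s) % p with ha
        have hap : a < p := Nat.mod_lt _ hp.pos
        have hkd : p * q + k % p = k := Nat.div_add_mod k p
        have hnd : p * ((n0 + s) / p) + a = n0 + s := Nat.div_add_mod (n0 + s) p
        -- indices
        let F : Finset ℕ := (range (q + 1)).image (fun t => a + t * p)
        have hFcard : F.card = q + 1 := by
          rw [Finset.card_image_of_injective _ (fun x y hxy => by
            have : x * p = y * p := by simpa using hxy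
            exact Nat.eq_of_mul_eq_mul_right hp.pos this), card_range]
        have hFmem : ∀ j ∈ F, j < k ∧ p ∣ n0 + s - j := by
          intro j hj
          obtain ⟨u, hu, rfl⟩ := Finset.mem_image.mp hj
          have hu' := mem_range.mp hu
          have h1 : u * p ≤ p * q := by
            rw [mul_comm]; exact Nat.mul_le_mul_left p (by omega)
          refine ⟨by omega, ?_⟩
          have h2 : n0 + s - (a + u * p) = p * ((n0 + s) / p) - p * u := by
            rw [mul_comm p u]; omega
          rw [h2]
          exact Nat.dvd_sub (dvd_mul_right _ _) (dvd_mul_right _ _)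
        calc q ≤ (F.erase i).card := by
              have := Finset.pred_card_le_card_erase (s := F) (a := i)
              omega
          _ = ∑ j ∈ F.erase i, 1 := by simp
          _ ≤ ∑ j ∈ F.erase i, (n0 + s - j).factorization p := by
              refine Finset.sum_le_sum fun j hj => ?_
              have h1 := hFmem j (mem_of_mem_erase hj)
              exact (hp.dvd_iff_one_le_factorization (by omega)).mp h1.2
          _ ≤ ∑ j ∈ (range k).erase i, (n0 + s - j).factorization p := by
              refine Finset.sum_le_sum_of_subset fun j hj => ?_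
              rw [mem_erase] at hj ⊢
              exact ⟨hj.1, mem_range.mpr (hFmem j hj.2).1⟩
  have hfil : (range k).filter (fun i => ¬ (n0 + s - i) ∣ (n0 + s).choose k) = {s} := by
    ext i
    rw [mem_filter, mem_singleton, mem_range]
    constructor
    · rintro ⟨hi, hnd⟩
      by_contra his
      exact hnd ((key i hi).mpr his)
    · rintro rfl
      exact ⟨hs, fun h => (key i hs).mp h rfl⟩
  rw [numFail, hfil, card_singleton]


/-- the primes of class A -/
def clA (k s : ℕ) : Finset ℕ :=
  (range (k + 1)).filter (fun p => p.Prime ∧ (k < p * p → k % p ≤ 2 * s))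

/-- the primes of class B -/
def clB (k s : ℕ) : Finset ℕ :=
  (range (k + 1)).filter (fun p => p.Prime ∧ k < p * p ∧ 2 * s < k % p)

lemma card_clA (k s : ℕ) : (clA k s).card ≤ Nat.sqrt k + 2 * s + 1 := by
  have hsub : clA k s ⊆ (Finset.Icc 1 (Nat.sqrt k)) ∪
      ((clA k s).filter (fun p => k < p * p)) := by
    intro p hp
    rw [mem_union]
    by_cases h : k < p * p
    · right; exact mem_filter.mpr ⟨hp, h⟩
    · left
      have hp' := (mem_filter.mp hp).2.1
      rw [Finset.mem_Icc]
      exact ⟨hp'.one_lt.le, Nat.le_sqrt.mpr (by omega)⟩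
  have h2 : ((clA k s).filter (fun p => k < p * p)).card ≤ 2 * s + 1 := by
    have : ((clA k s).filter (fun p => k < p * p)).card ≤ (range (2 * s + 1)).card := by
      apply Finset.card_le_card_of_injOn (fun p => k % p)
      · intro p hp
        have hp1 := mem_filter.mp (Finset.mem_coe.mp hp)
        have hp2 := (mem_filter.mp hp1.1).2
        have := hp2.2 hp1.2
        exact Finset.mem_coe.mpr (mem_range.mpr (by show k % p < 2 * s + 1; omega))
      · intro p hp q hq hpq
        have hp1 := mem_filter.mp (Finset.mem_coe.mp hp)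
        have hq1 := mem_filter.mp (Finset.mem_coe.mp hq)
        have hp2 := (mem_filter.mp hp1.1).2.1
        have hq2 := (mem_filter.mp hq1.1).2.1
        have hpk := mem_range.mp (mem_filter.mp hp1.1).1
        have hqk := mem_range.mp (mem_filter.mp hq1.1).1
        by_contra hne
        simp only at hpq
        have hdp : p ∣ k - k % p := Nat.dvd_sub_mod k
        have hdq : q ∣ k - k % p := by rw [hpq]; exact Nat.dvd_sub_mod k
        have hcop : Nat.Coprime p q := (Nat.coprime_primes hp2 hq2).mpr hne
        have hd : p * q ∣ k - k % p := hcop.mul_dvd_of_dvd_of_dvd hdp hdq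
        have hlt : k % p < p := Nat.mod_lt _ hp2.pos
        have hpos : 0 < k - k % p := by omega
        have hle := Nat.le_of_dvd hpos hd
        rcases lt_or_gt_of_ne hne with h | h
        · have : p * p ≤ p * q := Nat.mul_le_mul_left p h.le
          have := hp1.2
          omega
        · have : q * q ≤ p * q := Nat.mul_le_mul_right q h.le
          have := hq1.2
          omega
    simpa using this
  calc (clA k s).card ≤ _ := Finset.card_le_card hsub
    _ ≤ (Finset.Icc 1 (Nat.sqrt k)).card + ((clA k s).filter (fun p => k < p * p)).card :=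
        Finset.card_union_le _ _
    _ ≤ Nat.sqrt k + (2 * s + 1) := by
        rw [Nat.card_Icc]; omega
    _ = _ := by ring

lemma card_clB (k s : ℕ) : (clB k s).card ≤ Nat.primeCounting k := by
  rw [Nat.primeCounting, Nat.primeCounting', Nat.count_eq_card_filter_range]
  apply Finset.card_le_card
  intro p hp
  have := mem_filter.mp hp
  exact mem_filter.mpr ⟨this.1, this.2.1⟩

/-- the modulus -/
def modA (k s : ℕ) : ℕ := ∏ p ∈ clA k s, p ^ (3 * Nat.log p k)

lemma modA_le (k s : ℕ) (hk : 1 ≤ k) : modA k s ≤ k ^ (3 * (Nat.sqrt k + 2 * s + 1)) := by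
  calc modA k s ≤ ∏ p ∈ clA k s, k ^ 3 := by
        apply Finset.prod_le_prod' 
        intro p hp
        rw [mul_comm, pow_mul]
        exact Nat.pow_le_pow_left (Nat.pow_log_le_self p (by omega)) 3
    _ = (k ^ 3) ^ (clA k s).card := by rw [Finset.prod_const]
    _ ≤ (k ^ 3) ^ (Nat.sqrt k + 2 * s + 1) := 
        Nat.pow_le_pow_right (by positivity) (card_clA k s)
    _ = _ := by rw [← pow_mul]

lemma modA_ge (k s : ℕ) (hk : 4 ≤ k) : 2 * k ≤ modA k s := by
  have h2 : 2 ∈ clA k s := by
    refine mem_filter.mpr ⟨mem_range.mpr (by omega), Nat.prime_two, fun h => by omega⟩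
  have h3 : 2 ^ (3 * Nat.log 2 k) ∣ modA k s := Finset.dvd_prod_of_mem _ h2
  have hpos : 0 < modA k s := by
    apply Finset.prod_pos
    intro p hp
    exact pow_pos (mem_filter.mp hp).2.1.pos _
  have hL : 1 ≤ Nat.log 2 k := Nat.log_pos (by norm_num) (by omega)
  have h4 : k < 2 ^ (Nat.log 2 k + 1) := Nat.lt_pow_succ_log_self (by norm_num) k
  have h5 : 2 ^ (Nat.log 2 k + 1 + 1) ≤ 2 ^ (3 * Nat.log 2 k) :=
    Nat.pow_le_pow_right (by norm_num) (by omega)
  have h6 := Nat.le_of_dvd hpos h3
  rw [pow_succ] at h5
  omega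

theorem finite_bound (k s : ℕ) (hk : 4 ≤ k) (hs : s < k) :
    ∃ n, 2 * k ≤ n ∧ numFail n k = 1 ∧
      n ≤ (k / (s + 1) + 1) ^ (Nat.primeCounting k) * k ^ (3 * (Nat.sqrt k + 2 * s + 1)) + s := by
  set K := k / (s + 1) + 1 with hK
  set M := modA k s with hM
  have hMpos : 0 < M := by have := modA_ge k s hk; omega
  -- pigeonhole
  let f : Fin (K ^ (clB k s).card + 1) → ({p // p ∈ clB k s} → Fin K) := fun t p =>
    ⟨((t.val * M) % p.val) / (s + 1), by
      have hp := (mem_filter.mp p.2)
      have hp0 : 0 < p.val := hp.2.1.pos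
      have hpk := mem_range.mp hp.1
      have h1 : (t.val * M) % p.val < p.val := Nat.mod_lt _ hp0
      exact Nat.lt_succ_of_le (Nat.div_le_div_right (by omega))⟩
  have hcard : Fintype.card ({p // p ∈ clB k s} → Fin K) < Fintype.card (Fin (K ^ (clB k s).card + 1)) := by
    rw [Fintype.card_fin, Fintype.card_fun, Fintype.card_fin, Fintype.card_coe]
    omega
  obtain ⟨x, y, hxy, hfxy⟩ := Fintype.exists_ne_map_eq_of_card_lt f hcard
  have main : ∀ x y : Fin (K ^ (clB k s).card + 1), x < y → f x = f y →
      ∃ n, 2 * k ≤ n ∧ numFail n k = 1 ∧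
      n ≤ K ^ (Nat.primeCounting k) * k ^ (3 * (Nat.sqrt k + 2 * s + 1)) + s := by
    intro x y hlt hf
    have hlt' : x.val < y.val := hlt
    have hyle : y.val ≤ K ^ (clB k s).card := by have := y.2; omega
    set d := y.val - x.val with hd
    have hd1 : 1 ≤ d := by omega
    refine ⟨d * M + s, ?_, ?_, ?_⟩
    · have := modA_ge k s hk
      have h2 : M ≤ d * M := Nat.le_mul_of_pos_left M hd1
      omega
    · apply good (by omega) hs
      · have := modA_ge k s hk
        have h2 : M ≤ d * M := Nat.le_mul_of_pos_left M hd1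
        omega
      · intro p hp hpk hcl
        have : p ∈ clA k s := mem_filter.mpr ⟨mem_range.mpr (by omega), hp, hcl⟩
        have h3 : p ^ (3 * Nat.log p k) ∣ M := by
          rw [hM, modA]
          exact Finset.dvd_prod_of_mem (fun p => p ^ (3 * Nat.log p k)) this
        exact h3.trans (dvd_mul_left _ _)
      · intro p hp hpk hpp hr
        have hpB : p ∈ clB k s := mem_filter.mpr ⟨mem_range.mpr (by omega), hp, hpp, hr⟩
        have h1 := congrFun hf ⟨p, hpB⟩
        have h2 : ((x.val * M) % p) / (s + 1) = ((y.val * M) % p) / (s + 1) := by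
          have := congrArg Fin.val h1
          exact this
        set u := (x.val * M) % p with hu
        set v := (y.val * M) % p with hv
        have hup : u < p := Nat.mod_lt _ hp.pos
        have hvp : v < p := Nat.mod_lt _ hp.pos
        have hrp : k % p < p := Nat.mod_lt _ hp.pos
        have hu2 : (s + 1) * (u / (s + 1)) + u % (s + 1) = u := Nat.div_add_mod u (s + 1)
        have hv2 : (s + 1) * (v / (s + 1)) + v % (s + 1) = v := Nat.div_add_mod v (s + 1)
        have hu3 : u % (s + 1) < s + 1 := Nat.mod_lt _ (by omega)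
        have hv3 : v % (s + 1) < s + 1 := Nat.mod_lt _ (by omega)
        rw [h2] at hu2
        have hle1 : u ≤ v + s := by omega
        have hle2 : v ≤ u + s := by omega
        have hmod : (d * M + s) + u ≡ v + s [MOD p] := by
          have e1 : (d * M + s) + x.val * M = y.val * M + s := by
            have : y.val = d + x.val := by omega
            rw [this]; ring
          have e2 : u ≡ x.val * M [MOD p] := Nat.mod_modEq _ _
          have e3 : v ≡ y.val * M [MOD p] := Nat.mod_modEq _ _
          calc (d * M + s) + u ≡ (d * M + s) + x.val * M [MOD p] := Nat.ModEq.add_left _ e2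
            _ = y.val * M + s := e1
            _ ≡ v + s [MOD p] := (Nat.ModEq.add_right _ e3).symm
        have hmod2 : (d * M + s) ≡ v + s - u [MOD p] := by
          apply Nat.ModEq.add_right_cancel' u
          rw [Nat.sub_add_cancel hle1]
          exact hmod
        rw [hmod2, Nat.mod_eq_of_lt (by omega)]
        omega
    · have h1 : d * M ≤ K ^ (Nat.primeCounting k) * k ^ (3 * (Nat.sqrt k + 2 * s + 1)) := by
        apply Nat.mul_le_mul
        · calc d ≤ K ^ (clB k s).card := by omega
            _ ≤ K ^ (Nat.primeCounting k) :=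
              Nat.pow_le_pow_right (by rw [hK]; exact Nat.succ_pos _) (card_clB k s)
        · exact modA_le k s (by omega)
      omega
  rcases lt_or_gt_of_ne hxy with h | h
  · exact main x y h hfxy
  · exact main y x h hfxy.symm


open Filter in
lemma asymptotic : ∃ K0 : ℕ, ∀ k : ℕ, K0 ≤ k → ∃ n, 2 * k ≤ n ∧ numFail n k = 1 ∧
    (n : ℝ) ≤ Real.exp (19 * k * Real.log (Real.log k) / Real.log k) := by
  have h1 : ∀ᶠ x : ℝ in atTop, (Nat.primeCounting ⌊x⌋₊ : ℝ) ≤ (Real.log 4 + 1 / 2) * x / Real.log x :=
    Chebyshev.eventually_primeCounting_le (by norm_num)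
  have h2 : ∀ᶠ x : ℝ in atTop, Real.log x ^ 4 ≤ x := by
    have := (Real.isLittleO_pow_log_id_atTop (n := 4)).bound (show (0 : ℝ) < 1 by norm_num)
    filter_upwards [this, eventually_ge_atTop (1 : ℝ)] with x hx hx1
    have hL : 0 ≤ Real.log x := Real.log_nonneg hx1
    rw [Real.norm_of_nonneg (by positivity), id, Real.norm_of_nonneg (by linarith), one_mul] at hx
    exact hx
  have h3 : ∀ᶠ x : ℝ in atTop, 3 ≤ Real.log x :=
    Real.tendsto_log_atTop.eventually_ge_atTop 3
  have h4 := (tendsto_natCast_atTop_atTop (R := ℝ)).eventually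
    (h1.and (h2.and (h3.and (eventually_ge_atTop (4 : ℝ)))))
  obtain ⟨K0, hK0⟩ := eventually_atTop.mp h4
  refine ⟨K0, fun k hk => ?_⟩
  obtain ⟨hpi, hlog4, hL3, hk4⟩ := hK0 k hk
  rw [Nat.floor_natCast] at hpi
  set x : ℝ := (k : ℝ) with hx
  set L : ℝ := Real.log x with hL
  have hk4' : 4 ≤ k := by
    rw [hx] at hk4
    exact_mod_cast hk4
  have hx0 : 0 < x := by linarith
  have hL0 : 0 < L := by linarith
  have hexpL : Real.exp L = x := Real.exp_log hx0
  set ℓ : ℝ := Real.log L with hℓ
  have hℓ1 : 1 ≤ ℓ := by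
    rw [hℓ, Real.le_log_iff_exp_le hL0]
    have := Real.exp_one_lt_d9
    linarith
  set s : ℕ := ⌊x / L ^ 2⌋₊ with hs
  have hs1 : (s : ℝ) ≤ x / L ^ 2 := Nat.floor_le (by positivity)
  have hs2 : x / L ^ 2 < s + 1 := Nat.lt_floor_add_one _
  have hL2 : (9 : ℝ) ≤ L ^ 2 := by nlinarith
  have hxL2 : x / L ^ 2 < x := by
    rw [div_lt_iff₀ (by positivity)]; nlinarith
  have hsk : s < k := by
    have : (s : ℝ) < k := lt_of_le_of_lt hs1 hxL2
    exact_mod_cast this
  obtain ⟨n, hn1, hn2, hn3⟩ := finite_bound k s hk4' hsk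
  refine ⟨n, hn1, hn2, ?_⟩
  have hn4 : (n : ℝ) ≤ ((k / (s + 1) : ℕ) + 1 : ℝ) ^ (Nat.primeCounting k)
      * x ^ (3 * (Nat.sqrt k + 2 * s + 1)) + s := by
    have := (Nat.cast_le (α := ℝ)).mpr hn3
    push_cast at this
    rw [hx]
    exact this
  -- the base
  have hbase : ((k / (s + 1) : ℕ) + 1 : ℝ) ≤ Real.exp (3 * ℓ) := by
    have e1 : ((k / (s + 1) : ℕ) : ℝ) ≤ L ^ 2 := by
      have e2 : ((k / (s + 1) : ℕ) : ℝ) ≤ (k : ℝ) / ((s + 1 : ℕ) : ℝ) := Nat.cast_div_le
      refine e2.trans ?_
      rw [div_le_iff₀ (by positivity)]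
      rw [div_lt_iff₀ (by positivity)] at hs2
      push_cast
      linarith
    have e3 : Real.exp (3 * ℓ) = L ^ 3 := by
      rw [hℓ, mul_comm, Real.exp_mul, Real.exp_log hL0]
      norm_cast
    rw [e3]
    nlinarith
  have hpow1 : ((k / (s + 1) : ℕ) + 1 : ℝ) ^ (Nat.primeCounting k)
      ≤ Real.exp (3 * ℓ * (Nat.primeCounting k)) := by
    calc _ ≤ (Real.exp (3 * ℓ)) ^ (Nat.primeCounting k) :=
          pow_le_pow_left₀ (by positivity) hbase _
      _ = _ := by rw [← Real.exp_nat_mul]; ring_nf
  have hpow2 : x ^ (3 * (Nat.sqrt k + 2 * s + 1))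
      = Real.exp (L * (3 * (Nat.sqrt k + 2 * s + 1))) := by
    rw [← hexpL, ← Real.exp_nat_mul]
    push_cast
    ring_nf
  have hsqrt : ((Nat.sqrt k : ℕ) : ℝ) ≤ x / L ^ 2 := by
    have e1 : ((Nat.sqrt k : ℕ) : ℝ) ≤ √x := Real.nat_sqrt_le_real_sqrt
    refine e1.trans ?_
    rw [Real.sqrt_le_left (by positivity), div_pow, le_div_iff₀ (by positivity)]
    nlinarith
  have hone : (1 : ℝ) ≤ x / L ^ 2 := by
    rw [le_div_iff₀ (by positivity)]
    nlinarith
  have hpi2 : (Nat.primeCounting k : ℝ) ≤ 2 * x / L := by
    refine hpi.trans ?_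
    have : Real.log 4 + 1 / 2 ≤ 2 := by
      have e : Real.log 4 = 2 * Real.log 2 := by
        rw [show (4 : ℝ) = 2 ^ 2 by norm_num, Real.log_pow]; norm_num
      have := Real.log_two_lt_d9
      rw [e]; linarith
    gcongr
  set B : ℝ := x * ℓ / L with hB
  have hxLL : L * (x / L ^ 2) = x / L := by field_simp
  have hxB : x / L ≤ B := by
    rw [hB, div_le_div_iff_of_pos_right hL0]
    nlinarith
  have hA1 : 3 * ℓ * (Nat.primeCounting k) ≤ 6 * B := by
    calc 3 * ℓ * (Nat.primeCounting k) ≤ 3 * ℓ * (2 * x / L) := by gcongr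
      _ = 6 * B := by rw [hB]; ring
  have hA2 : L * (3 * ((Nat.sqrt k : ℕ) + 2 * s + 1)) ≤ 12 * B := by
    calc L * (3 * ((Nat.sqrt k : ℕ) + 2 * s + 1))
        ≤ L * (3 * (x / L ^ 2 + 2 * (x / L ^ 2) + x / L ^ 2)) := by gcongr
      _ = 12 * (L * (x / L ^ 2)) := by ring
      _ = 12 * (x / L) := by rw [hxLL]
      _ ≤ 12 * B := by linarith
  have hLB : L ≤ B := by
    refine le_trans ?_ hxB
    rw [le_div_iff₀ hL0]
    nlinarith
  have hB1 : 1 ≤ B := by linarith
  have hfin : (n : ℝ) ≤ Real.exp (18 * B) + Real.exp (18 * B) := by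
    refine hn4.trans (add_le_add ?_ ?_)
    · rw [hpow2]
      calc _ ≤ Real.exp (3 * ℓ * (Nat.primeCounting k))
            * Real.exp (L * (3 * (Nat.sqrt k + 2 * s + 1))) := by gcongr
        _ = Real.exp (3 * ℓ * (Nat.primeCounting k) + L * (3 * (Nat.sqrt k + 2 * s + 1))) := by
            rw [Real.exp_add]
        _ ≤ Real.exp (18 * B) := by
            apply Real.exp_le_exp.mpr
            linarith
    · calc (s : ℝ) ≤ x := by linarith
        _ = Real.exp L := hexpL.symm
        _ ≤ Real.exp (18 * B) := Real.exp_le_exp.mpr (by linarith)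
  calc (n : ℝ) ≤ 2 * Real.exp (18 * B) := by linarith
    _ ≤ Real.exp 1 * Real.exp (18 * B) := by
        gcongr
        have := Real.exp_one_gt_d9
        linarith
    _ = Real.exp (1 + 18 * B) := by rw [Real.exp_add]
    _ ≤ Real.exp (19 * x * ℓ / L) := by
        apply Real.exp_le_exp.mpr
        have : 19 * x * ℓ / L = 19 * B := by rw [hB]; ring
        rw [this]; linarith

/-- `n_k`: the least `n ≥ 2k` with `N(n,k) = 1`. -/
noncomputable def leastN (k : ℕ) : ℕ := sInf {n | 2 * k ≤ n ∧ numFail n k = 1}

theorem result :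
    (∀ k s : ℕ, 4 ≤ k → s < k → IsLeast {n | 2 * k ≤ n ∧ numFail n k = 1} (leastN k) ∧
      leastN k ≤ (k / (s + 1) + 1) ^ (Nat.primeCounting k) * k ^ (3 * (Nat.sqrt k + 2 * s + 1)) + s) ∧
    (∃ K0 : ℕ, ∀ k : ℕ, K0 ≤ k →
      (leastN k : ℝ) ≤ Real.exp (19 * k * Real.log (Real.log k) / Real.log k)) := by
  have hle : ∀ {k n : ℕ}, 2 * k ≤ n → numFail n k = 1 → leastN k ≤ n := fun h1 h2 =>
    Nat.sInf_le ⟨h1, h2⟩
  constructor
  · intro k s hk hs
    obtain ⟨n, h1, h2, h3⟩ := finite_bound k s hk hs
    refine ⟨⟨Nat.sInf_mem (s := {n | 2 * k ≤ n ∧ numFail n k = 1}) ⟨n, h1, h2⟩, fun m hm => Nat.sInf_le hm⟩, ?_⟩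
    exact (hle h1 h2).trans h3
  · obtain ⟨K0, hK0⟩ := asymptotic
    refine ⟨K0, fun k hk => ?_⟩
    obtain ⟨n, h1, h2, h3⟩ := hK0 k hk
    exact le_trans (by exact_mod_cast hle h1 h2) h3

end Pool.Agent.Results.MP_14bcfc_nt.Subexponential
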